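import Pool.Agent.Helper9.GW.Final

set_option autoImplicit false

namespace Pool.Agent.Results.MP_0ec542_nt.RankinWitness

open Finset Nat Filter

/-- `TwinIndex q`: `q` is prime and `p_{q+2} + 2` is prime, where `p_k` is the `k`-th prime
(`p_1 = 2`); note that `Nat.nth Nat.Prime (k - 1)` is `p_k`. -/
def TwinIndex (q : ℕ) : Prop := q.Prime ∧ (Nat.nth Nat.Prime (q + 1) + 2).Prime

/-- `Witness n q`: the prime `q` witnesses the assertion of Q1 at `n`, i.e. `2 n - q` and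
`p_{q+2} + 2` are both prime. -/
def Witness (n q : ℕ) : Prop := TwinIndex q ∧ ∃ r : ℕ, r.Prime ∧ q + r = 2 * n

open Classical in
/-- `T y`: the number of primes `q ≤ y` with `p_{q+2} + 2` prime -/
noncomputable def T (y : ℕ) : ℕ := ((Finset.Icc 1 y).filter TwinIndex).card

/-- iterated logarithms: `L i x = log (... (log x))`, `i` times -/
noncomputable def L (i : ℕ) (x : ℝ) : ℝ := Real.log^[i] x

open Classical in
/-- the number of `n` with `3 ≤ n ≤ x` which have no witness `q ≤ R` -/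
noncomputable def unwitnessed (x : ℕ) (R : ℝ) : ℕ :=
  ((Finset.Icc 3 x).filter (fun n => ∀ q : ℕ, (q : ℝ) ≤ R → ¬ Witness n q)).card

theorem not_twinIndex_two : ¬ TwinIndex 2 := by
  rintro ⟨_, h⟩
  have h7 : Nat.nth Nat.Prime 3 = 7 := by
    have := Nat.nth_count (p := Nat.Prime) (n := 7) (by norm_num)
    have hc : Nat.count Nat.Prime 7 = 3 := by decide
    rwa [hc] at this
  rw [show 2 + 1 = 3 by norm_num, h7] at h
  norm_num at h

open Helper9.GW in
theorem unwitnessed_ge {x R : ℕ} {a : ℝ} {S : Finset ℕ}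
    (hS : ∀ q, q ∈ S ↔ (1 ≤ q ∧ q ≤ R) ∧ TwinIndex q)
    (h : a + 2 ≤ repFree S x) : a ≤ unwitnessed x R := by
  classical
  have h1 : repFree S x ≤ (((Finset.Icc 3 x).filter
      (fun n => ∀ q : ℕ, (q : ℝ) ≤ (R : ℝ) → ¬ Witness n q)) ∪ {1, 2}).card := by
    refine repFree_le _ fun n h1 h2 h3 => ?_
    by_cases hn3 : 3 ≤ n
    · refine mem_union_left _ (mem_filter.2 ⟨mem_Icc.2 ⟨hn3, h2⟩, ?_⟩)
      rintro q hq ⟨hqT, r, hr, hqr⟩
      exact h3 q ((hS q).2 ⟨⟨hqT.1.one_lt.le, by exact_mod_cast hq⟩, hqT⟩) r hr hqr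
    · refine mem_union_right _ ?_
      rw [mem_insert, mem_singleton]
      omega
  have h1' := h1.trans (card_union_le _ _)
  have h2 : ({1, 2} : Finset ℕ).card = 2 := rfl
  rw [h2] at h1'
  have h4 : repFree S x ≤ unwitnessed x R + 2 := by
    refine h1'.trans (le_of_eq ?_)
    unfold unwitnessed
    congr!
  have h3 : (repFree S x : ℝ) ≤ unwitnessed x R + 2 := by exact_mod_cast h4
  linarith

open Helper9.GW in
theorem result (B : ℕ) : ∃ c : ℝ, 0 < c ∧ ∃ x₀ : ℕ, ∀ x : ℕ, x₀ ≤ x →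
    (∀ Y R : ℕ, Y ≤ R → (Y : ℝ) ≤ L 1 x * L 2 x ^ B →
      L 3 x ^ 2 / (L 2 x * L 4 x) * T Y + (T R - T Y) ≤ c * L 1 x →
      √(x : ℝ) ≤ unwitnessed x R) ∧
    √(x : ℝ) ≤ unwitnessed x (c * L 1 x * L 2 x ^ 2 * L 4 x / L 3 x ^ 2) := by
  classical
  obtain ⟨c₁, hc₁, hmain⟩ := main (B + 2)
  have hcast : Tendsto (fun k : ℕ => (k : ℝ)) atTop atTop := tendsto_natCast_atTop_atTop
  have t1 : Tendsto (fun k : ℕ => L 1 k) atTop atTop := Real.tendsto_log_atTop.comp hcast
  have t2 : Tendsto (fun k : ℕ => L 2 k) atTop atTop := Real.tendsto_log_atTop.comp t1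
  have t3 : Tendsto (fun k : ℕ => L 3 k) atTop atTop := Real.tendsto_log_atTop.comp t2
  have t4 : Tendsto (fun k : ℕ => L 4 k) atTop atTop := Real.tendsto_log_atTop.comp t3
  set c : ℝ := min (c₁ / 2) 1 with hc
  have hc0 : 0 < c := lt_min (by linarith) one_pos
  have hcc : c ≤ c₁ / 2 := min_le_left _ _
  have hc1 : c ≤ 1 := min_le_right _ _
  -- sets
  have key : ∀ x : ℕ, (∀ (S : Finset ℕ) (Y : ℕ),
      (∀ q ∈ S, q.Prime ∧ q ≠ 2) → (Y : ℝ) ≤ L 1 x * L 2 x ^ (B + 2) →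
      wt x * ((S.filter (fun q => q ≤ Y)).card : ℝ) + ((S.filter (fun q => ¬ q ≤ Y)).card : ℝ) ≤
        c₁ * L 1 x →
      √(x : ℝ) + 2 ≤ repFree S x) →
      ∀ Y R : ℕ, Y ≤ R → (Y : ℝ) ≤ L 1 x * L 2 x ^ (B + 2) →
      wt x * T Y + (T R - T Y) ≤ c₁ * L 1 x → √(x : ℝ) ≤ unwitnessed x R := by
    intro x hx Y R hYR hY hcond
    refine unwitnessed_ge (S := (Finset.Icc 1 R).filter TwinIndex)
      (fun q => by rw [mem_filter, mem_Icc]) ?_
    refine hx ((Finset.Icc 1 R).filter TwinIndex) Y ?_ hY ?_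
    · intro q hq
      have h1 := (mem_filter.1 hq).2
      exact ⟨h1.1, fun h => not_twinIndex_two (h ▸ h1)⟩
    · have e1 : ((Finset.Icc 1 R).filter TwinIndex).filter (fun q => q ≤ Y) =
          (Finset.Icc 1 Y).filter TwinIndex := by
        ext q
        simp only [mem_filter, mem_Icc]
        constructor
        · rintro ⟨⟨⟨h1, h2⟩, h3⟩, h4⟩
          exact ⟨⟨h1, h4⟩, h3⟩
        · rintro ⟨⟨h1, h2⟩, h3⟩
          exact ⟨⟨⟨h1, h2.trans hYR⟩, h3⟩, h2⟩
      have e2 := card_filter_add_card_filter_not (s := (Finset.Icc 1 R).filter TwinIndex)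
        (fun q => q ≤ Y)
      rw [e1] at e2 ⊢
      have e3 : (T Y : ℝ) +
          ((((Finset.Icc 1 R).filter TwinIndex).filter (fun q => ¬ q ≤ Y)).card : ℝ) = T R := by
        exact_mod_cast e2
      have e4 : ((((Finset.Icc 1 R).filter TwinIndex).filter (fun q => ¬ q ≤ Y)).card : ℝ) =
          T R - T Y := by linarith
      rw [e4]
      exact hcond
  have hε : 0 < 2 - Real.log 4 := by
    have : Real.log 4 = 2 * Real.log 2 := by
      rw [show (4 : ℝ) = 2 ^ 2 by norm_num, Real.log_pow]; norm_num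
    have := Real.log_two_lt_d9
    linarith
  obtain ⟨t₀, ht₀⟩ := eventually_atTop.1 (Chebyshev.eventually_primeCounting_le hε)
  refine ⟨c, hc0, ?_⟩
  rw [← eventually_atTop (p := fun x : ℕ =>
    (∀ Y R : ℕ, Y ≤ R → (Y : ℝ) ≤ L 1 x * L 2 x ^ B →
      L 3 x ^ 2 / (L 2 x * L 4 x) * T Y + (T R - T Y) ≤ c * L 1 x →
      √(x : ℝ) ≤ unwitnessed x R) ∧
    √(x : ℝ) ≤ unwitnessed x (c * L 1 x * L 2 x ^ 2 * L 4 x / L 3 x ^ 2))]
  have hgrow : ∀ᶠ x : ℕ in atTop, L 3 x ^ 2 ≤ c * L 2 x := by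
    have h1 := isLittleO_pow_exp_pos_mul_atTop (k := 2) (b := 1) one_pos
    have h2 := h1.bound (c := c) hc0
    filter_upwards [t3.eventually h2, t2.eventually_ge_atTop 1, t3.eventually_ge_atTop 0]
      with x h3 h4 h5
    rw [Real.norm_of_nonneg (by positivity), Real.norm_of_nonneg (Real.exp_pos _).le, one_mul] at h3
    have h6 : Real.exp (L 3 x) = L 2 x := by
      change Real.exp (Real.log (L 2 x)) = _
      rw [Real.exp_log (by linarith)]
    rwa [h6] at h3
  filter_upwards [hmain, t1.eventually_ge_atTop (max t₀ 2), t2.eventually_ge_atTop 1,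
    t3.eventually_ge_atTop 1, t4.eventually_ge_atTop 1, hgrow] with x hx g1 g2 g3 g4 g5
  have G1 : 2 ≤ L 1 x := (le_max_right _ _).trans g1
  have G0 : t₀ ≤ L 1 x := (le_max_left _ _).trans g1
  have hwt : wt x = L 3 x ^ 2 / (L 2 x * L 4 x) := rfl
  refine ⟨?_, ?_⟩
  · intro Y R hYR hY hcond
    refine key x hx Y R hYR ?_ ?_
    · refine hY.trans ?_
      apply mul_le_mul_of_nonneg_left _ (by linarith)
      exact pow_le_pow_right₀ g2 (by omega)
    · rw [hwt]
      refine hcond.trans ?_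
      apply mul_le_mul_of_nonneg_right _ (by linarith)
      linarith
  · set y : ℝ := c * L 1 x * L 2 x ^ 2 * L 4 x / L 3 x ^ 2 with hy
    have hL4 : L 4 x ≤ L 3 x := by
      have h1 : Real.log (L 3 x) ≤ L 3 x - 1 := Real.log_le_sub_one_of_pos (by linarith)
      have h2 : L 4 x = Real.log (L 3 x) := rfl
      rw [h2]
      linarith
    have hy1 : L 1 x ≤ y := by
      rw [hy, le_div_iff₀ (by positivity)]
      have h1 : L 3 x ^ 2 ≤ c * (L 2 x ^ 2 * L 4 x) := by
        refine g5.trans ?_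
        apply mul_le_mul_of_nonneg_left _ hc0.le
        have h2 : L 2 x ≤ L 2 x ^ 2 := by nlinarith
        nlinarith
      calc L 1 x * L 3 x ^ 2 ≤ L 1 x * (c * (L 2 x ^ 2 * L 4 x)) :=
            mul_le_mul_of_nonneg_left h1 (by linarith)
        _ = _ := by ring
    have hy2 : y ≤ L 1 x * L 2 x ^ 2 := by
      rw [hy, div_le_iff₀ (by positivity)]
      have h1 : c * L 4 x ≤ L 3 x ^ 2 := by nlinarith
      calc c * L 1 x * L 2 x ^ 2 * L 4 x = L 1 x * L 2 x ^ 2 * (c * L 4 x) := by ring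
        _ ≤ _ := mul_le_mul_of_nonneg_left h1 (by positivity)
    have hy0 : 0 ≤ y := by linarith
    have hfl : (⌊y⌋₊ : ℝ) ≤ y := Nat.floor_le hy0
    have hpi : (Nat.primeCounting ⌊y⌋₊ : ℝ) ≤ 2 * y / Real.log y := by
      have := ht₀ y (G0.trans hy1)
      have e : Real.log 4 + (2 - Real.log 4) = 2 := by ring
      rwa [e] at this
    have hL1 : 0 < L 1 x := by linarith
    have hlogy : L 2 x ≤ Real.log y := Real.log_le_log hL1 hy1
    have hT : (T ⌊y⌋₊ : ℝ) ≤ Nat.primeCounting ⌊y⌋₊ := by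
      rw [← Nat.primesLE_card_eq_primeCounting]
      have h5 : (Finset.Icc 1 ⌊y⌋₊).filter TwinIndex ⊆ Nat.primesLE ⌊y⌋₊ := by
        intro p hp
        rw [mem_filter, mem_Icc] at hp
        rw [Nat.mem_primesLE]
        exact ⟨hp.1.2, hp.2.1⟩
      exact_mod_cast card_le_card h5
    have hT2 : (T ⌊y⌋₊ : ℝ) ≤ 2 * y / L 2 x := by
      refine hT.trans (hpi.trans ?_)
      exact div_le_div_of_nonneg_left (by linarith) (by linarith) hlogy
    have h1 := key x hx ⌊y⌋₊ ⌊y⌋₊ le_rfl (hfl.trans (hy2.trans (by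
      apply mul_le_mul_of_nonneg_left _ (by linarith)
      exact pow_le_pow_right₀ g2 (by omega)))) (by
      rw [sub_self, add_zero, hwt]
      have h2 : L 3 x ^ 2 / (L 2 x * L 4 x) * T ⌊y⌋₊ ≤
          L 3 x ^ 2 / (L 2 x * L 4 x) * (2 * y / L 2 x) :=
        mul_le_mul_of_nonneg_left hT2 (by positivity)
      refine h2.trans (le_of_eq_of_le (b := 2 * c * L 1 x) ?_ ?_)
      · have n2 : L 2 x ≠ 0 := by linarith
        have n3 : L 3 x ≠ 0 := by linarith
        have n4 : L 4 x ≠ 0 := by linarith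
        rw [hy]
        field_simp
      · apply mul_le_mul_of_nonneg_right _ (by linarith)
        linarith)
    refine h1.trans ?_
    have h3 : unwitnessed x (⌊y⌋₊ : ℝ) ≤ unwitnessed x y := by
      unfold unwitnessed
      refine card_le_card fun n hn => ?_
      rw [mem_filter] at hn ⊢
      refine ⟨hn.1, fun q hq => hn.2 q ?_⟩
      have : q ≤ ⌊y⌋₊ := Nat.le_floor hq
      exact_mod_cast this
    exact_mod_cast h3

end Pool.Agent.Results.MP_0ec542_nt.RankinWitness
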