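import Pool.Agent.RS.MainC

set_option autoImplicit false

namespace Pool.Agent.Results.MP_0ec542_nt.RepellingWeights

open Finset Filter

/-- `TwinIndex q`: `q` is prime and `p_{q+2} + 2` is prime, where `p_k` is the `k`-th prime
(`p_1 = 2`); note that `Nat.nth Nat.Prime (k - 1)` is `p_k`. -/
def TwinIndex (q : ℕ) : Prop := q.Prime ∧ (Nat.nth Nat.Prime (q + 1) + 2).Prime

/-- `Witness n q`: the prime `q` witnesses the assertion of Q1 at `n`, i.e. `2 n - q` and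
`p_{q+2} + 2` are both prime. -/
def Witness (n q : ℕ) : Prop := TwinIndex q ∧ ∃ r : ℕ, r.Prime ∧ q + r = 2 * n

open Classical in
/-- number of primes `q ≤ R` with `p_{q+2} + 2` prime that avoid the classes `a ℓ mod ℓ`,
`ℓ ∈ S` -/
noncomputable def T (S : Finset ℕ) (a : ℕ → ℕ) (R : ℕ) : ℕ :=
  ((Finset.Icc 1 R).filter (fun q => TwinIndex q ∧ ∀ ℓ ∈ S, ¬ q ≡ a ℓ [MOD ℓ])).card

open Classical in
/-- number of `n` with `3 ≤ n ≤ x` that have no witness `q ≤ R` -/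
noncomputable def unwitnessed (x R : ℕ) : ℕ :=
  ((Finset.Icc 3 x).filter (fun n => ∀ q ≤ R, ¬ Witness n q)).card

/-- `∏ ℓ / (ℓ - 1)` over `ℓ ∈ S` -/
noncomputable def ratio (S : Finset ℕ) : ℝ := ∏ ℓ ∈ S, (ℓ : ℝ) / ((ℓ : ℝ) - 1)

theorem totient_ratio (S : Finset ℕ) (hS : ∀ ℓ ∈ S, ℓ.Prime) :
    (((∏ ℓ ∈ S, ℓ : ℕ) : ℝ) / Nat.totient (∏ ℓ ∈ S, ℓ)) = ratio S := by
  classical
  unfold ratio
  induction S using Finset.induction_on with
  | empty => simp
  | insert p S hp ih =>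
    have hpp : p.Prime := hS p (Finset.mem_insert_self _ _)
    have ih' := ih (fun ℓ hℓ => hS ℓ (Finset.mem_insert_of_mem hℓ))
    rw [Finset.prod_insert hp, Finset.prod_insert hp]
    have hcop : Nat.Coprime p (∏ ℓ ∈ S, ℓ) := by
      refine Nat.Coprime.prod_right fun ℓ hℓ => ?_
      exact (Nat.coprime_primes hpp (hS ℓ (Finset.mem_insert_of_mem hℓ))).2
        (fun h => hp (h ▸ hℓ))
    rw [Nat.totient_mul hcop, Nat.totient_prime hpp]
    push_cast
    rw [mul_div_mul_comm, ← ih', Nat.cast_sub hpp.one_lt.le]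
    push_cast
    rfl

theorem two_mul_ratio (S : Finset ℕ) (hS : ∀ ℓ ∈ S, ℓ.Prime ∧ ℓ ≠ 2) :
    (((2 * ∏ ℓ ∈ S, ℓ : ℕ) : ℝ) / Nat.totient (2 * ∏ ℓ ∈ S, ℓ)) = 2 * ratio S := by
  have hcop : Nat.Coprime 2 (∏ ℓ ∈ S, ℓ) := by
    refine Nat.Coprime.prod_right fun ℓ hℓ => ?_
    exact (Nat.coprime_primes Nat.prime_two (hS ℓ hℓ).1).2 (fun h => (hS ℓ hℓ).2 h.symm)
  rw [← totient_ratio S (fun ℓ hℓ => (hS ℓ hℓ).1), Nat.totient_mul hcop, Nat.totient_two]
  push_cast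
  rw [one_mul, mul_div_assoc]

theorem one_le_ratio (S : Finset ℕ) (hS : ∀ ℓ ∈ S, ℓ.Prime) : 1 ≤ ratio S := by
  unfold ratio
  refine Finset.one_le_prod fun ℓ hℓ => ?_
  have h := (hS ℓ hℓ).two_le
  have h2 : (2 : ℝ) ≤ ℓ := by exact_mod_cast h
  rw [one_le_div (by linarith)]
  linarith

/-- The residue class: an even class mod `2 ∏ ℓ` which is `a ℓ mod ℓ`. -/
theorem exists_residue (S : Finset ℕ) (hS : ∀ ℓ ∈ S, ℓ.Prime ∧ ℓ ≠ 2) (a : ℕ → ℕ) :
    ∃ r : ℕ, ∀ N : ℕ, N ≡ r [MOD 2 * ∏ ℓ ∈ S, ℓ] → N % 2 = 0 ∧ ∀ ℓ ∈ S, N ≡ a ℓ [MOD ℓ] := by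
  have hcop : Set.Pairwise (↑S : Set ℕ) (Function.onFun Nat.Coprime (id : ℕ → ℕ)) := by
    intro i hi j hj hij
    exact (Nat.coprime_primes (hS i hi).1 (hS j hj).1).2 hij
  obtain ⟨k, hk⟩ := Nat.chineseRemainderOfFinset (fun ℓ => a ℓ) (id : ℕ → ℕ) S
      (fun i hi => (hS i hi).1.ne_zero) hcop
  have hcop2 : Nat.Coprime 2 (∏ ℓ ∈ S, ℓ) := by
    refine Nat.Coprime.prod_right fun ℓ hℓ => ?_
    exact (Nat.coprime_primes Nat.prime_two (hS ℓ hℓ).1).2 (fun h => (hS ℓ hℓ).2 h.symm)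
  obtain ⟨r, hr1, hr2⟩ := Nat.chineseRemainder hcop2 0 k
  refine ⟨r, fun N hN => ⟨?_, fun ℓ hℓ => ?_⟩⟩
  · have h1 : N ≡ 0 [MOD 2] := (hN.of_mul_right _).trans hr1
    exact h1
  · have h1 : N ≡ k [MOD ∏ ℓ ∈ S, ℓ] := (hN.of_mul_left _).trans hr2
    exact (h1.of_dvd (Finset.dvd_prod_of_mem _ hℓ)).trans (hk ℓ hℓ)

open Classical in
/-- Combinatorial step: if `2 n` is in the class and no `2 n - b`, `b ∈ A`, is prime, then `n` has
no witness `q ≤ R`. -/
theorem no_witness (S : Finset ℕ) (hS : ∀ ℓ ∈ S, ℓ.Prime ∧ ℓ ≠ 2) (a : ℕ → ℕ) (R n : ℕ)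
    (h1 : ∀ ℓ ∈ S, 2 * n ≡ a ℓ [MOD ℓ])
    (h2 : ∀ b ∈ (Finset.Icc 1 R).filter
      (fun q => TwinIndex q ∧ ∀ ℓ ∈ S, ¬ q ≡ a ℓ [MOD ℓ]) ∪ S, b ≤ 2 * n →
      ¬ (2 * n - b).Prime) : ∀ q ≤ R, ¬ Witness n q := by
  rintro q hq ⟨hT, r, hr, hqr⟩
  by_cases h0 : ∀ ℓ ∈ S, ¬ q ≡ a ℓ [MOD ℓ]
  · refine h2 q ?_ (by omega) ?_
    · refine Finset.mem_union_left _ (Finset.mem_filter.2 ⟨?_, hT, h0⟩)
      rw [Finset.mem_Icc]
      exact ⟨hT.1.one_lt.le, hq⟩
    · have : 2 * n - q = r := by omega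
      rw [this]
      exact hr
  · push Not at h0
    obtain ⟨ℓ, hℓ, hqℓ⟩ := h0
    have h3 : q + r ≡ q + 0 [MOD ℓ] := by
      rw [hqr, add_zero]
      exact (h1 ℓ hℓ).trans hqℓ.symm
    have h4 : r ≡ 0 [MOD ℓ] := Nat.ModEq.add_left_cancel' q h3
    have h5 : ℓ ∣ r := (Nat.modEq_zero_iff_dvd).1 h4
    have h6 : ℓ = r := (Nat.prime_dvd_prime_iff_eq (hS ℓ hℓ).1 hr).1 h5
    refine h2 ℓ (Finset.mem_union_right _ hℓ) (by omega) ?_
    have : 2 * n - ℓ = q := by omega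
    rw [this]
    exact hT.1

theorem result : ∃ c C : ℝ, 0 < c ∧ 0 < C ∧ ∀ S : Finset ℕ, (∀ ℓ ∈ S, ℓ.Prime ∧ ℓ ≠ 2) →
    ∃ x₀ : ℕ, ∀ x : ℕ, x₀ ≤ x → ∀ (a : ℕ → ℕ) (R : ℕ),
      (T S a R : ℝ) * ratio S ≤ c * (Real.log x * Real.log (Real.log x)) →
      (x : ℝ) * Real.exp (-(C * ((T S a R : ℝ) * ratio S / Real.log (Real.log x) +
        Real.log x ^ (4 / 5 : ℝ)))) ≤ unwitnessed x R := by
  classical
  obtain ⟨c, C, hc, hC, hmain⟩ := Pool.Agent.RS.mainC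
  refine ⟨c / 4, 4 * C, by positivity, by positivity, fun S hS => ?_⟩
  set P := ∏ ℓ ∈ S, ℓ with hP
  have hPpos : 0 < P := Finset.prod_pos fun ℓ hℓ => (hS ℓ hℓ).1.pos
  obtain ⟨x0, hx0⟩ := hmain (2 * P) (by omega)
  have hrat := one_le_ratio S (fun ℓ hℓ => (hS ℓ hℓ).1)
  -- largeness conditions
  have hlog : Tendsto (fun x : ℕ => Real.log x) atTop atTop :=
    Real.tendsto_log_atTop.comp tendsto_natCast_atTop_atTop
  have hloglog : Tendsto (fun x : ℕ => Real.log (Real.log x)) atTop atTop :=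
    Real.tendsto_log_atTop.comp hlog
  have hll : ∀ᶠ x : ℕ in atTop,
      (S.card : ℝ) * ratio S ≤ min (c / 4) 1 * Real.log (Real.log x) := by
    have := hloglog.const_mul_atTop (show 0 < min (c / 4) 1 by positivity)
    exact this.eventually_ge_atTop _
  obtain ⟨x1, hx1⟩ := eventually_atTop.1 (hll.and ((hlog.eventually_ge_atTop 3).and
    ((hloglog.eventually_ge_atTop 1).and (eventually_ge_atTop (max x0 6)))))
  refine ⟨x1, fun x hx a R hcond => ?_⟩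
  obtain ⟨g1, g2, g3, g4⟩ := hx1 x hx
  have g5 : x0 ≤ x := (le_max_left _ _).trans g4
  have g6 : 6 ≤ x := (le_max_right _ _).trans g4
  obtain ⟨r, hr⟩ := exists_residue S hS a
  set A := (Finset.Icc 1 R).filter (fun q => TwinIndex q ∧ ∀ ℓ ∈ S, ¬ q ≡ a ℓ [MOD ℓ]) ∪ S
    with hA
  have hAcard : (A.card : ℝ) ≤ T S a R + S.card := by
    exact_mod_cast Finset.card_union_le _ _
  have hx0r : (0 : ℝ) < x := by
    have : 0 < x := by omega
    exact_mod_cast this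
  have hl0 : 0 < Real.log x := by linarith
  have hl1 : Real.log x ≤ Real.log ((2 * x : ℕ) : ℝ) :=
    Real.log_le_log hx0r (by push_cast; linarith)
  have hl2 : Real.log (Real.log x) ≤ Real.log (Real.log ((2 * x : ℕ) : ℝ)) :=
    Real.log_le_log hl0 hl1
  have hl3 : Real.log ((2 * x : ℕ) : ℝ) ≤ 2 * Real.log x := by
    push_cast
    rw [Real.log_mul (by norm_num) hx0r.ne']
    have := Real.log_two_lt_d9
    linarith
  -- the cost
  have hq := two_mul_ratio S hS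
  have hτ : (A.card : ℝ) * (((2 * P : ℕ) : ℝ) / Nat.totient (2 * P)) ≤
      2 * ((T S a R : ℝ) * ratio S) + 2 * (S.card * ratio S) := by
    rw [hq]
    calc (A.card : ℝ) * (2 * ratio S) ≤ ((T S a R : ℝ) + S.card) * (2 * ratio S) := by
          apply mul_le_mul_of_nonneg_right hAcard
          linarith
      _ = _ := by ring
  have hcond' : (A.card : ℝ) * (((2 * P : ℕ) : ℝ) / Nat.totient (2 * P)) ≤
      c * (Real.log ((2 * x : ℕ) : ℝ) * Real.log (Real.log ((2 * x : ℕ) : ℝ))) := by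
    refine hτ.trans ?_
    have e1 : 2 * (S.card * ratio S) ≤ c / 2 * (Real.log x * Real.log (Real.log x)) := by
      have : Real.log (Real.log x) ≤ Real.log x * Real.log (Real.log x) := by nlinarith
      have e3 : min (c / 4) 1 * Real.log (Real.log x) ≤ c / 4 * Real.log (Real.log x) :=
        mul_le_mul_of_nonneg_right (min_le_left _ _) (by linarith)
      nlinarith
    have e2 : Real.log x * Real.log (Real.log x) ≤
        Real.log ((2 * x : ℕ) : ℝ) * Real.log (Real.log ((2 * x : ℕ) : ℝ)) :=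
      mul_le_mul hl1 hl2 (by linarith) (by linarith)
    nlinarith
  have hres := hx0 (2 * x) (by omega) r A hcond'
  -- comparison of the sets
  have hinj : (((Finset.Ioc (2 * x / 2) (2 * x)).filter
        (fun n => n ≡ r [MOD 2 * P] ∧ ∀ b ∈ A, b ≤ n → ¬ (n - b).Prime)).card : ℝ) ≤
      unwitnessed x R := by
    unfold unwitnessed
    have : ((Finset.Ioc (2 * x / 2) (2 * x)).filter
        (fun n => n ≡ r [MOD 2 * P] ∧ ∀ b ∈ A, b ≤ n → ¬ (n - b).Prime)).card ≤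
        ((Finset.Icc 3 x).filter (fun n => ∀ q ≤ R, ¬ Witness n q)).card := by
      refine Finset.card_le_card_of_injOn (fun n => n / 2) ?_ ?_
      · intro n hn
        rw [Finset.mem_coe, Finset.mem_filter, Finset.mem_Ioc] at hn
        obtain ⟨⟨h1, h2⟩, h3, h4⟩ := hn
        obtain ⟨h5, h6⟩ := hr n h3
        have h7 : 2 * (n / 2) = n := by omega
        rw [Finset.mem_coe, Finset.mem_filter, Finset.mem_Icc]
        have h8 : 3 ≤ n / 2 := by omega
        have h9 : n / 2 ≤ x := by omega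
        refine ⟨⟨h8, h9⟩, no_witness S hS a R (n / 2) ?_ ?_⟩
        · rw [h7]; exact h6
        · rw [h7]; exact h4
      · intro n hn m hm hnm
        rw [Finset.mem_coe, Finset.mem_filter, Finset.mem_Ioc] at hn hm
        have h5 := (hr n hn.2.1).1
        have h6 := (hr m hm.2.1).1
        simp only at hnm
        omega
    exact_mod_cast this
  refine le_trans ?_ (hres.trans hinj)
  have hxx : (x : ℝ) ≤ ((2 * x : ℕ) : ℝ) := by push_cast; linarith
  refine mul_le_mul hxx ?_ (Real.exp_pos _).le (by positivity)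
  rw [Real.exp_le_exp, neg_le_neg_iff]
  -- exponent comparison
  have hT0 : (0 : ℝ) ≤ (T S a R : ℝ) * ratio S := by positivity
  have f1 : (A.card : ℝ) * (((2 * P : ℕ) : ℝ) / Nat.totient (2 * P)) /
      Real.log (Real.log ((2 * x : ℕ) : ℝ)) ≤
      2 * ((T S a R : ℝ) * ratio S / Real.log (Real.log x)) + 2 := by
    have hlp : 0 < Real.log (Real.log x) := by linarith
    calc (A.card : ℝ) * (((2 * P : ℕ) : ℝ) / Nat.totient (2 * P)) /
          Real.log (Real.log ((2 * x : ℕ) : ℝ))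
        ≤ (2 * ((T S a R : ℝ) * ratio S) + 2 * (S.card * ratio S)) /
          Real.log (Real.log x) := by
          apply div_le_div₀ (by positivity) hτ hlp hl2
      _ = 2 * ((T S a R : ℝ) * ratio S / Real.log (Real.log x)) +
          2 * ((S.card * ratio S) / Real.log (Real.log x)) := by ring
      _ ≤ _ := by
          have : (S.card * ratio S) / Real.log (Real.log x) ≤ 1 := by
            rw [div_le_iff₀ hlp]
            exact g1.trans (mul_le_mul_of_nonneg_right (min_le_right _ _) hlp.le)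
          linarith
  have f2 : Real.log ((2 * x : ℕ) : ℝ) ^ (4 / 5 : ℝ) ≤ 2 * Real.log x ^ (4 / 5 : ℝ) := by
    calc Real.log ((2 * x : ℕ) : ℝ) ^ (4 / 5 : ℝ) ≤ (2 * Real.log x) ^ (4 / 5 : ℝ) :=
          Real.rpow_le_rpow (by linarith) hl3 (by norm_num)
      _ = (2 : ℝ) ^ (4 / 5 : ℝ) * Real.log x ^ (4 / 5 : ℝ) :=
          Real.mul_rpow (by norm_num) hl0.le
      _ ≤ 2 * Real.log x ^ (4 / 5 : ℝ) := by
          apply mul_le_mul_of_nonneg_right _ (by positivity)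
          calc (2 : ℝ) ^ (4 / 5 : ℝ) ≤ (2 : ℝ) ^ (1 : ℝ) :=
                Real.rpow_le_rpow_of_exponent_le (by norm_num) (by norm_num)
            _ = 2 := Real.rpow_one 2
  have f3 : (1 : ℝ) ≤ Real.log x ^ (4 / 5 : ℝ) := Real.one_le_rpow (by linarith) (by norm_num)
  have f4 : 0 ≤ (T S a R : ℝ) * ratio S / Real.log (Real.log x) :=
    div_nonneg hT0 (by linarith)
  have f5 : (A.card : ℝ) * (((2 * P : ℕ) : ℝ) / Nat.totient (2 * P)) /
      Real.log (Real.log ((2 * x : ℕ) : ℝ)) + Real.log ((2 * x : ℕ) : ℝ) ^ (4 / 5 : ℝ) ≤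
      4 * ((T S a R : ℝ) * ratio S / Real.log (Real.log x) + Real.log x ^ (4 / 5 : ℝ)) := by
    linarith
  calc C * ((A.card : ℝ) * (((2 * P : ℕ) : ℝ) / Nat.totient (2 * P)) /
      Real.log (Real.log ((2 * x : ℕ) : ℝ)) + Real.log ((2 * x : ℕ) : ℝ) ^ (4 / 5 : ℝ))
      ≤ C * (4 * ((T S a R : ℝ) * ratio S / Real.log (Real.log x) +
        Real.log x ^ (4 / 5 : ℝ))) := mul_le_mul_of_nonneg_left f5 hC.le
    _ = _ := by ring

end Pool.Agent.Results.MP_0ec542_nt.RepellingWeights
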